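import Pool.Agent.Helper87.D3.Series

/-!
# Constant depth: arbitrary polynomials in `w` affine forms

Let `L i = c i + lam * α i + mu * β i`, where `α i` depends on the first and `β i` on the second
variable. Then the coefficient of `lam ^ b * mu ^ e` in `Q (L 1, ..., L w)` is a sum of at most
`w ^ b`, and of at most `w ^ e`, functions `f (x) * g (y)`.
-/

set_option autoImplicit false

namespace Pool.Agent.Helper59.CD

open Finset Pool.Agent.Helper87.D3

section
variable {K B : Type} [Field K] [CommRing B] [Algebra K B] {w : ℕ}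

/-- the sums of products of `b` elements `a i` and an element of `H` -/
def Mb (H : Subalgebra K B) (a : Fin w → B) (b : ℕ) : Submodule K B where
  carrier := {f | ∃ g : (Fin b → Fin w) → B, (∀ t, g t ∈ H) ∧ f = ∑ t, (∏ j, a (t j)) * g t}
  zero_mem' := ⟨fun _ => 0, fun _ => H.zero_mem, by simp⟩
  add_mem' := by
    rintro f f' ⟨g, hg, rfl⟩ ⟨g', hg', rfl⟩
    refine ⟨fun t => g t + g' t, fun t => H.add_mem (hg t) (hg' t), ?_⟩
    rw [← sum_add_distrib]
    exact sum_congr rfl fun t _ => by ring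
  smul_mem' := by
    rintro c f ⟨g, hg, rfl⟩
    refine ⟨fun t => c • g t, fun t => H.smul_mem (hg t) c, ?_⟩
    rw [smul_sum]
    exact sum_congr rfl fun t _ => by rw [mul_smul_comm]

theorem Mb_mul {H : Subalgebra K B} {a : Fin w → B} {b b' : ℕ} {x y : B} (hx : x ∈ Mb H a b)
    (hy : y ∈ Mb H a b') : x * y ∈ Mb H a (b + b') := by
  obtain ⟨g, hg, rfl⟩ := hx
  obtain ⟨g', hg', rfl⟩ := hy
  refine ⟨fun s => g (fun j => s (Fin.castAdd b' j)) * g' (fun j => s (Fin.natAdd b j)),
    fun s => H.mul_mem (hg _) (hg' _), ?_⟩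
  rw [sum_mul_sum, ← sum_product', ← Equiv.sum_comp (Fin.appendEquiv b b' (α := Fin w))]
  refine sum_congr rfl fun p _ => ?_
  simp only [Fin.appendEquiv, Equiv.coe_fn_mk, Fin.append_left, Fin.append_right,
    Fin.prod_univ_add]
  ring

theorem mem_Mb_zero {H : Subalgebra K B} {a : Fin w → B} {x : B} (hx : x ∈ H) :
    x ∈ Mb H a 0 := by
  refine ⟨fun _ => x, fun _ => hx, ?_⟩
  simp

theorem mem_Mb_one {H : Subalgebra K B} {a : Fin w → B} (i : Fin w) : a i ∈ Mb H a 1 := by
  classical
  refine ⟨fun t => if t 0 = i then 1 else 0, fun t => ?_, ?_⟩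
  · beta_reduce
    split_ifs
    · exact H.one_mem
    · exact H.zero_mem
  · rw [sum_eq_single (fun _ => i)]
    · simp
    · intro t _ ht
      have : t 0 ≠ i := by
        intro h
        apply ht
        ext j
        rw [Subsingleton.elim j 0, h]
      simp [this]
    · intro h
      exact absurd (mem_univ _) h

theorem big_left (H : Subalgebra K B) (a : Fin w → B) : Big (fun b _ => Mb H a b) :=
  ⟨mem_Mb_zero H.one_mem, fun hx hy => Mb_mul hx hy⟩

theorem big_right (H : Subalgebra K B) (a : Fin w → B) : Big (fun _ e => Mb H a e) :=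
  ⟨mem_Mb_zero H.one_mem, fun hx hy => Mb_mul hx hy⟩

theorem algebraMap_ser (c : K) : algebraMap K (Ser B) c = cst (algebraMap K B c) := by
  rw [PowerSeries.algebraMap_apply, PowerSeries.algebraMap_apply]
  rfl

/-- the affine forms -/
noncomputable def Lf (c : Fin w → K) (a b : Fin w → B) (i : Fin w) : Ser B :=
  cst (algebraMap K B (c i)) + lam B * cst (a i) + mu B * cst (b i)

theorem InB.aeval {M : ℕ → ℕ → Submodule K B} (hM : Big M) {ι : Type} (L : ι → Ser B)
    (hL : ∀ i, InB M (L i)) (Q : MvPolynomial ι K) : InB M (MvPolynomial.aeval L Q) := by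
  induction Q using MvPolynomial.induction_on with
  | C c =>
    rw [MvPolynomial.aeval_C, algebraMap_ser]
    exact InB.cst hM c
  | add p q hp hq =>
    rw [map_add]
    exact hp.add hq
  | mul_X p i hp =>
    rw [map_mul, MvPolynomial.aeval_X]
    exact hp.mul hM (hL i)

theorem cf_zero_zero_aeval (c : Fin w → K) (a b : Fin w → B) (Q : MvPolynomial (Fin w) K) :
    cf 0 0 (MvPolynomial.aeval (Lf c a b) Q) = algebraMap K B (MvPolynomial.eval c Q) := by
  induction Q using MvPolynomial.induction_on with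
  | C c =>
    rw [MvPolynomial.aeval_C, algebraMap_ser, cf_cst, if_pos ⟨rfl, rfl⟩, MvPolynomial.eval_C]
  | add p q hp hq => rw [map_add, cf_add, hp, hq, map_add, map_add]
  | mul_X p i hp =>
    rw [map_mul, MvPolynomial.aeval_X, cf_zero_zero_mul, hp, map_mul, MvPolynomial.eval_X, map_mul]
    congr 1
    unfold Lf
    rw [cf_add, cf_add, cf_cst, cf_lam_mul, cf_mu_mul]
    simp

theorem InB_Lf_left {H : Subalgebra K B} (c : Fin w → K) (a b : Fin w → B) (hb : ∀ i, b i ∈ H)
    (i : Fin w) : InB (fun n _ => Mb H a n) (Lf c a b i) := by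
  refine InB.add (InB.add (InB.cst (big_left H a) _) fun n e => ?_) fun n e => ?_
  · rw [cf_lam_mul]
    split_ifs with h
    · rw [h.1]
      exact mem_Mb_one i
    · exact Submodule.zero_mem _
  · rw [cf_mu_mul]
    split_ifs with h
    · rw [h.1]
      exact mem_Mb_zero (hb i)
    · exact Submodule.zero_mem _

theorem InB_Lf_right {H : Subalgebra K B} (c : Fin w → K) (a b : Fin w → B) (ha : ∀ i, a i ∈ H)
    (i : Fin w) : InB (fun _ n => Mb H b n) (Lf c a b i) := by
  refine InB.add (InB.add (InB.cst (big_right H b) _) fun n e => ?_) fun n e => ?_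
  · rw [cf_lam_mul]
    split_ifs with h
    · rw [h.2]
      exact mem_Mb_zero (ha i)
    · exact Submodule.zero_mem _
  · rw [cf_mu_mul]
    split_ifs with h
    · rw [h.2]
      exact mem_Mb_one i
    · exact Submodule.zero_mem _

end

section
variable {K X Y : Type} [Field K] {w : ℕ}

/-- functions of the first variable -/
def H1 (K X Y : Type) [Field K] : Subalgebra K (X × Y → K) where
  carrier := {f | ∃ g : X → K, f = fun p => g p.1}
  mul_mem' := by
    rintro _ _ ⟨g, rfl⟩ ⟨g', rfl⟩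
    exact ⟨g * g', rfl⟩
  add_mem' := by
    rintro _ _ ⟨g, rfl⟩ ⟨g', rfl⟩
    exact ⟨g + g', rfl⟩
  algebraMap_mem' c := ⟨fun _ => c, rfl⟩

/-- functions of the second variable -/
def H2 (K X Y : Type) [Field K] : Subalgebra K (X × Y → K) where
  carrier := {f | ∃ g : Y → K, f = fun p => g p.2}
  mul_mem' := by
    rintro _ _ ⟨g, rfl⟩ ⟨g', rfl⟩
    exact ⟨g * g', rfl⟩
  add_mem' := by
    rintro _ _ ⟨g, rfl⟩ ⟨g', rfl⟩
    exact ⟨g + g', rfl⟩
  algebraMap_mem' c := ⟨fun _ => c, rfl⟩

theorem base_left (c : Fin w → K) (α : Fin w → X → K) (β : Fin w → Y → K)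
    (Q : MvPolynomial (Fin w) K) (b e : ℕ) :
    ∃ (f : (Fin b → Fin w) → X → K) (g : (Fin b → Fin w) → Y → K),
      cf b e (MvPolynomial.aeval (Lf c (fun i (p : X × Y) => α i p.1) fun i p => β i p.2) Q) =
        ∑ t, fun p => f t p.1 * g t p.2 := by
  obtain ⟨g, hg, h⟩ := InB.aeval (big_left (H2 K X Y) fun i (p : X × Y) => α i p.1) _
    (InB_Lf_left c (fun i (p : X × Y) => α i p.1) (fun i (p : X × Y) => β i p.2)
      fun i => ⟨β i, rfl⟩) Q b e
  choose g' hg' using hg
  refine ⟨fun t x => ∏ j, α (t j) x, g', ?_⟩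
  rw [h]
  refine sum_congr rfl fun t _ => ?_
  rw [hg' t]
  ext p
  simp

theorem base_right (c : Fin w → K) (α : Fin w → X → K) (β : Fin w → Y → K)
    (Q : MvPolynomial (Fin w) K) (b e : ℕ) :
    ∃ (f : (Fin e → Fin w) → X → K) (g : (Fin e → Fin w) → Y → K),
      cf b e (MvPolynomial.aeval (Lf c (fun i (p : X × Y) => α i p.1) fun i p => β i p.2) Q) =
        ∑ t, fun p => f t p.1 * g t p.2 := by
  obtain ⟨g, hg, h⟩ := InB.aeval (big_right (H1 K X Y) fun i (p : X × Y) => β i p.2) _
    (InB_Lf_right c (fun i (p : X × Y) => α i p.1) (fun i (p : X × Y) => β i p.2)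
      fun i => ⟨α i, rfl⟩) Q b e
  choose g' hg' using hg
  refine ⟨g', fun t y => ∏ j, β (t j) y, ?_⟩
  rw [h]
  refine sum_congr rfl fun t _ => ?_
  rw [hg' t]
  ext p
  simp only [Pi.mul_apply, Finset.prod_apply]
  ring

/-- the cost of a sum -/
theorem cost_sum {ν : (X × Y → K) → ℝ → Prop} (h0 : ν 0 0)
    (hadd : ∀ f g a b, ν f a → ν g b → ν (f + g) (a + b)) {ι : Type} (s : Finset ι)
    (f : ι → X × Y → K) (hf : ∀ i ∈ s, ν (f i) 1) : ν (∑ i ∈ s, f i) s.card := by
  classical
  induction s using Finset.induction_on with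
  | empty => simpa using h0
  | insert i s hi ih =>
    rw [sum_insert hi, card_insert_of_notMem hi, add_comm]
    push_cast
    exact hadd _ _ _ _ (ih fun j hj => hf j (mem_insert_of_mem hj)) (hf i (mem_insert_self _ _))

/-- THE BASE STEP -/
theorem cost_base {ν : (X × Y → K) → ℝ → Prop} (h0 : ν 0 0)
    (hadd : ∀ f g a b, ν f a → ν g b → ν (f + g) (a + b))
    (hsep : ∀ (f : X → K) (g : Y → K), ν (fun p => f p.1 * g p.2) 1)
    (c : Fin w → K) (α : Fin w → X → K) (β : Fin w → Y → K) (Q : MvPolynomial (Fin w) K)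
    (b e : ℕ) :
    ν (cf b e (MvPolynomial.aeval (Lf c (fun i (p : X × Y) => α i p.1) fun i p => β i p.2) Q))
      ((w : ℝ) ^ b) ∧
    ν (cf b e (MvPolynomial.aeval (Lf c (fun i (p : X × Y) => α i p.1) fun i p => β i p.2) Q))
      ((w : ℝ) ^ e) := by
  constructor
  · obtain ⟨f, g, h⟩ := base_left c α β Q b e
    rw [h]
    have h1 := cost_sum h0 hadd (univ : Finset (Fin b → Fin w)) (fun t p => f t p.1 * g t p.2)
      fun t _ => hsep (f t) (g t)
    have h2 : ((univ : Finset (Fin b → Fin w)).card : ℝ) = (w : ℝ) ^ b := by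
      rw [card_univ, Fintype.card_fun, Fintype.card_fin, Fintype.card_fin]
      push_cast
      rfl
    rwa [h2] at h1
  · obtain ⟨f, g, h⟩ := base_right c α β Q b e
    rw [h]
    have h1 := cost_sum h0 hadd (univ : Finset (Fin e → Fin w)) (fun t p => f t p.1 * g t p.2)
      fun t _ => hsep (f t) (g t)
    have h2 : ((univ : Finset (Fin e → Fin w)).card : ℝ) = (w : ℝ) ^ e := by
      rw [card_univ, Fintype.card_fun, Fintype.card_fin, Fintype.card_fin]
      push_cast
      rfl
    rwa [h2] at h1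

end

end Pool.Agent.Helper59.CD
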